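import Pool.Agent.ATB.Stmts

/-!
# GEN: formal properties of `Qm` and `Qm'`
-/

set_option autoImplicit false

open scoped TensorProduct

namespace Pool.Agent.ATB.H52

open Pool.Agent.ATB

variable {K : Type} [Field K] {n : ℕ}

theorem om_gen {k : ℤ} {Z B D : Multiset (Fin n → K)} {i : ℤ}
    {ω : ExteriorAlgebra K (Fin n → K)} (h : B + D = Z) (hc : (B.card : ℤ) = k + i)
    (hω : ω ∈ Lpow (sp B) i) : prodm D ⊗ₜ[K] ω ∈ Om k Z i :=
  Submodule.subset_span ⟨B, D, ω, hω, h, hc, rfl⟩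

theorem omH_gen {k : ℤ} {Z B D : Multiset (Fin n → K)} {H : Submodule K (Fin n → K)} {i : ℤ}
    {ω : ExteriorAlgebra K (Fin n → K)} (h : B + D = Z) (hs : sp B = H)
    (hc : (B.card : ℤ) = k + i) (hω : ω ∈ Lpow H i) : prodm D ⊗ₜ[K] ω ∈ OmH k Z H i :=
  Submodule.subset_span ⟨B, D, ω, hω, h, hs, hc, rfl⟩

theorem sub_pm {k : ℤ} {Z : Multiset (Fin n → K)} {c : Fin n → K} {r : ℕ} {i : ℤ}
    {H : Submodule K (Fin n → K)} (hc : c ∉ H) (hr : r ≤ Module.finrank K H) :
    (OmH (k + 1) Z H i).map (pm (lin c)) ≤ Qm k Z c r i := by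
  unfold Qm
  refine le_trans ?_ le_sup_right
  refine le_trans ?_ (le_iSup₂ (f := fun (H : Submodule K (Fin n → K))
    (_ : c ∉ H ∧ r ≤ Module.finrank K H) => ((OmH (k + 1) Z H i).map (pm (lin c)) ⊔
      (OmH (k + 1) Z H (i - 1)).map (wl c))) H ⟨hc, hr⟩)
  exact le_sup_left

theorem sub_wl {k : ℤ} {Z : Multiset (Fin n → K)} {c : Fin n → K} {r : ℕ} {i : ℤ}
    {H : Submodule K (Fin n → K)} (hc : c ∉ H) (hr : r ≤ Module.finrank K H) :
    (OmH (k + 1) Z H (i - 1)).map (wl c) ≤ Qm k Z c r i := by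
  unfold Qm
  refine le_trans ?_ le_sup_right
  refine le_trans ?_ (le_iSup₂ (f := fun (H : Submodule K (Fin n → K))
    (_ : c ∉ H ∧ r ≤ Module.finrank K H) => ((OmH (k + 1) Z H i).map (pm (lin c)) ⊔
      (OmH (k + 1) Z H (i - 1)).map (wl c))) H ⟨hc, hr⟩)
  exact le_sup_right

theorem om_le {k : ℤ} {Z : Multiset (Fin n → K)} {c : Fin n → K} {r : ℕ} {i : ℤ} :
    Om k Z i ≤ Qm k Z c r i := le_sup_left

/-- to bound `Qm` from above -/
theorem qm_le {k : ℤ} {Z : Multiset (Fin n → K)} {c : Fin n → K} {r : ℕ} {i : ℤ}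
    {T : Submodule K (AA K n)} (h0 : Om k Z i ≤ T)
    (h1 : ∀ H : Submodule K (Fin n → K), c ∉ H → r ≤ Module.finrank K H →
      (OmH (k + 1) Z H i).map (pm (lin c)) ≤ T)
    (h2 : ∀ H : Submodule K (Fin n → K), c ∉ H → r ≤ Module.finrank K H →
      (OmH (k + 1) Z H (i - 1)).map (wl c) ≤ T) : Qm k Z c r i ≤ T := by
  unfold Qm
  refine sup_le h0 (iSup₂_le fun H hH => sup_le (h1 H hH.1 hH.2) (h2 H hH.1 hH.2))

theorem qm_anti {k : ℤ} {Z : Multiset (Fin n → K)} {c : Fin n → K} {r s : ℕ} {i : ℤ} (h : r ≤ s) :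
    Qm k Z c s i ≤ Qm k Z c r i :=
  qm_le om_le (fun _ hc hr => sub_pm hc (h.trans hr)) (fun _ hc hr => sub_wl hc (h.trans hr))

theorem qm'_le {k : ℤ} {Z : Multiset (Fin n → K)} {c : Fin n → K} {r : ℕ} {i : ℤ} :
    Qm' k Z c r i ≤ Qm k Z c r i := by
  unfold Qm'
  refine sup_le (qm_anti (Nat.le_succ r)) (iSup₂_le fun H hH => ?_)
  exact sub_wl hH.1 hH.2.ge

theorem wl_le_qm' {k : ℤ} {Z : Multiset (Fin n → K)} {c : Fin n → K} {r : ℕ} {i : ℤ}
    {H : Submodule K (Fin n → K)} (hc : c ∉ H) (hr : Module.finrank K H = r) :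
    (OmH (k + 1) Z H (i - 1)).map (wl c) ≤ Qm' k Z c r i := by
  unfold Qm'
  refine le_trans ?_ le_sup_right
  exact le_iSup₂ (f := fun (H : Submodule K (Fin n → K))
    (_ : c ∉ H ∧ Module.finrank K H = r) => (OmH (k + 1) Z H (i - 1)).map (wl c)) H ⟨hc, hr⟩

theorem gen (cin : CINStmt) (clo : CLOStmt) (lpw : LPWStmt) : GENStmt := by
  intro K _ n k Z c i
  obtain ⟨mono, mul, dec, _⟩ := lpw K n
  have clo3 : ∀ (H : Submodule K (Fin n → K)) (i : ℤ),
      OmH (k + 1) Z H i = (Cc (k + 1) Z H i).map (pm (prodm (out Z H))) :=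
    (clo K n (k + 1) Z).2.2.1
  have mem_sup : ∀ (B : Multiset (Fin n → K)), c ∈ sp (c ::ₘ B) := fun B =>
    mem_sp (Multiset.mem_cons_self c B)
  have le_cons : ∀ (B : Multiset (Fin n → K)), sp B ≤ sp (c ::ₘ B) := fun B => by
    rw [sp_cons]
    exact le_sup_left
  refine ⟨le_antisymm (qm_le ?_ ?_ ?_) ?_, ?_, ?_, ?_, ?_⟩
  · -- Om k Z i ≤ Om (k+1) (c :: Z) i
    refine Submodule.span_le.2 ?_
    rintro x ⟨B, D, ω, hω, h, hc, rfl⟩
    refine om_gen (B := c ::ₘ B) (by rw [Multiset.cons_add, h]) ?_ (mono _ _ i (le_cons B) hω)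
    rw [Multiset.card_cons]
    push_cast
    omega
  · intro H _ _
    rw [OmH, Submodule.map_span_le]
    rintro x ⟨B, D, ω, hω, h, hs, hc, rfl⟩
    rw [pm_tmul, ← prodm_cons]
    subst hs
    exact om_gen (B := B) (by rw [Multiset.add_cons, h]) hc hω
  · intro H _ _
    rw [OmH, Submodule.map_span_le]
    rintro x ⟨B, D, ω, hω, h, hs, hc, rfl⟩
    rw [wl_tmul]
    subst hs
    refine om_gen (B := c ::ₘ B) (by rw [Multiset.cons_add, h]) ?_ ?_
    · rw [Multiset.card_cons]
      push_cast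
      omega
    · have h1 := mul (sp (c ::ₘ B)) (i - 1) c ω (mem_sup B) (mono _ _ _ (le_cons B) hω)
      rwa [sub_add_cancel] at h1
  · refine Submodule.span_le.2 ?_
    rintro x ⟨B, D, ω, hω, h, hc, rfl⟩
    have hm : c ∈ B + D := by
      rw [h]
      exact Multiset.mem_cons_self c Z
    rw [Multiset.mem_add] at hm
    rcases hm with hm | hm
    · obtain ⟨B', rfl⟩ := Multiset.exists_cons_of_mem hm
      rw [Multiset.cons_add, Multiset.cons_inj_right] at h
      rw [Multiset.card_cons] at hc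
      push_cast at hc
      rw [sp_cons] at hω
      obtain ⟨ω₀, h0, ω₁, h1, rfl⟩ := dec (sp B') c i ω hω
      rw [TensorProduct.tmul_add]
      refine Submodule.add_mem _ (om_le (om_gen h (by omega) h0)) ?_
      by_cases hcB : c ∈ sp B'
      · have h2 := mul (sp B') (i - 1) c ω₁ hcB h1
        rw [sub_add_cancel] at h2
        exact om_le (om_gen h (by omega) h2)
      · rw [← wl_tmul]
        refine sub_wl hcB (Nat.zero_le _) (Submodule.mem_map_of_mem ?_)
        exact omH_gen h rfl (by omega) h1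
    · obtain ⟨D', rfl⟩ := Multiset.exists_cons_of_mem hm
      rw [Multiset.add_cons, Multiset.cons_inj_right] at h
      rw [prodm_cons, ← pm_tmul]
      by_cases hcB : c ∈ sp B
      · have h2 := cin K n k Z B D' c i ω h hc hω hcB
        refine (sup_le om_le (iSup₂_le fun H hH => ?_)) h2
        exact sub_wl hH.1 (Nat.zero_le _)
      · refine sub_pm hcB (Nat.zero_le _) (Submodule.mem_map_of_mem ?_)
        exact omH_gen h rfl hc hω
  · intro r hr
    refine le_antisymm (qm_le le_rfl ?_ ?_) om_le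
    · intro H hc hf
      exfalso
      have h1 : H < ⊤ := by
        refine lt_top_iff_ne_top.2 fun h => hc ?_
        rw [h]
        exact Submodule.mem_top
      have h2 := Submodule.finrank_lt h1.ne
      rw [Module.finrank_fin_fun] at h2
      omega
    · intro H hc hf
      exfalso
      have h1 : H < ⊤ := by
        refine lt_top_iff_ne_top.2 fun h => hc ?_
        rw [h]
        exact Submodule.mem_top
      have h2 := Submodule.finrank_lt h1.ne
      rw [Module.finrank_fin_fun] at h2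
      omega
  · intro r
    exact ⟨om_le, le_sup_left, qm'_le⟩
  · intro r
    have e : ∀ H : Submodule K (Fin n → K), (Cc (k + 1) Z H i).map
        (pm (lin c) ∘ₗ pm (prodm (out Z H))) = (OmH (k + 1) Z H i).map (pm (lin c)) := by
      intro H
      rw [Submodule.map_comp, ← clo3]
    refine le_antisymm (qm_le ?_ ?_ ?_) (sup_le qm'_le (iSup_le fun H => ?_))
    · exact le_trans (le_trans om_le le_sup_left) le_sup_left
    · intro H hc hr
      rcases hr.eq_or_lt with hr | hr
      · refine le_trans ?_ le_sup_right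
        refine le_trans (le_of_eq (e H).symm) ?_
        exact le_iSup (fun H : {H : Submodule K (Fin n → K) // c ∉ H ∧ Module.finrank K H = r} =>
          (Cc (k + 1) Z H.1 i).map (pm (lin c) ∘ₗ pm (prodm (out Z H.1)))) ⟨H, hc, hr.symm⟩
      · exact le_trans (le_trans (sub_pm hc hr) le_sup_left) le_sup_left
    · intro H hc hr
      rcases hr.eq_or_lt with hr | hr
      · exact le_trans (wl_le_qm' hc hr.symm) le_sup_left
      · exact le_trans (le_trans (sub_wl hc hr) le_sup_left) le_sup_left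
    · rw [e H.1]
      exact sub_pm H.2.1 H.2.2.ge
  · intro r
    have e : ∀ H : Submodule K (Fin n → K), (Cc (k + 1) Z H (i - 1)).map
        (wl c ∘ₗ pm (prodm (out Z H))) = (OmH (k + 1) Z H (i - 1)).map (wl c) := by
      intro H
      rw [Submodule.map_comp, ← clo3]
    rw [Qm']
    congr 1
    rw [iSup_subtype]
    exact iSup_congr fun H => iSup_congr fun _ => (e H).symm

end Pool.Agent.ATB.H52
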